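import Pool.Agent.U469.EW.Stm

/-!
# Project EW, package LIM: passage to the limit in the balance of the energy
-/

set_option autoImplicit false

open MeasureTheory Set Filter Topology
open scoped ENNReal

namespace Pool.Agent.U128.EW.LIM

open Pool.Agent.U469.EW

lemma sq_nonneg' (a : Fld) (k : Wv) : 0 ≤ sq a k := Finset.sum_nonneg fun _ _ => sq_nonneg _

lemma nsq_nonneg (k : Wv) : 0 ≤ nsq k := Finset.sum_nonneg fun _ _ => sq_nonneg _

lemma lim_sum {F : ℕ → Finset Wv} {φ : ℕ → Wv → ℝ} (hφ : ∀ n k, 0 ≤ φ n k ∧ φ n k ≤ 1)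
    (hF : ∀ k, ∀ᶠ n in atTop, k ∈ F n ∧ φ n k = 1) {g : Wv → ℝ} (hg : Summable g) :
    Tendsto (fun n => ∑ k ∈ F n, φ n k * g k) atTop (𝓝 (∑' k, g k)) := by
  classical
  have h1 : ∀ n, ∑ k ∈ F n, φ n k * g k = ∑' k, if k ∈ F n then φ n k * g k else 0 := by
    intro n
    rw [tsum_eq_sum (s := F n) (fun k hk => if_neg hk)]
    exact Finset.sum_congr rfl fun k hk => (if_pos hk).symm
  simp only [h1]
  refine tendsto_tsum_of_dominated_convergence hg.abs ?_ ?_
  · intro k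
    refine tendsto_const_nhds.congr' ?_
    filter_upwards [hF k] with n hn
    rw [if_pos hn.1, hn.2, one_mul]
  · refine Eventually.of_forall fun n k => ?_
    split_ifs
    · rw [Real.norm_eq_abs, abs_mul, abs_of_nonneg (hφ n k).1]
      exact mul_le_of_le_one_left (abs_nonneg _) (hφ n k).2
    · rw [norm_zero]
      exact abs_nonneg _

lemma bd_sum {F : Finset Wv} {φ : Wv → ℝ} (hφ : ∀ k, 0 ≤ φ k ∧ φ k ≤ 1) {g b : Wv → ℝ}
    (hgb : ∀ k, |g k| ≤ b k) (hb : Summable b) : |∑ k ∈ F, φ k * g k| ≤ ∑' k, b k := by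
  have hb0 : ∀ k, 0 ≤ b k := fun k => (abs_nonneg _).trans (hgb k)
  calc |∑ k ∈ F, φ k * g k| ≤ ∑ k ∈ F, |φ k * g k| := Finset.abs_sum_le_sum_abs _ _
    _ ≤ ∑ k ∈ F, b k := by
        refine Finset.sum_le_sum fun k _ => ?_
        rw [abs_mul, abs_of_nonneg (hφ k).1]
        exact (mul_le_of_le_one_left (abs_nonneg _) (hφ k).2).trans (hgb k)
    _ ≤ ∑' k, b k := hb.sum_le_tsum _ fun k _ => hb0 k

lemma summable_of {g : Wv → ℝ} (hg : ∀ k, 0 ≤ g k) (h : ∑' k, ENNReal.ofReal (g k) ≠ ⊤) :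
    Summable g ∧ ∑' k, g k = (∑' k, ENNReal.ofReal (g k)).toReal := by
  have h1 := ENNReal.summable_toReal h
  have h2 : (fun k => (ENNReal.ofReal (g k)).toReal) = g := funext fun k =>
    ENNReal.toReal_ofReal (hg k)
  rw [h2] at h1
  refine ⟨h1, ?_⟩
  rw [ENNReal.tsum_toReal_eq fun k => ENNReal.ofReal_ne_top]
  exact tsum_congr fun k => (ENNReal.toReal_ofReal (hg k)).symm

lemma meas_sq {T : ℝ} {u : ℝ → Fld}
    (h : ∀ k i, AEStronglyMeasurable (fun t => u t k i) (volume.restrict (Icc 0 T))) (k : Wv) :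
    AEStronglyMeasurable (fun t => sq (u t) k) (volume.restrict (Icc 0 T)) := by
  unfold Pool.Agent.U469.EW.sq
  exact Finset.aestronglyMeasurable_fun_sum _ fun i _ => (h k i).norm.pow 2

lemma force_bd (v w : Fin 3 → ℂ) : |(∑ i, v i * (starRingEnd ℂ) (w i)).re| ≤
    ((∑ i, ‖v i‖ ^ 2) + ∑ i, ‖w i‖ ^ 2) / 2 := by
  calc |(∑ i, v i * (starRingEnd ℂ) (w i)).re| ≤ ‖∑ i, v i * (starRingEnd ℂ) (w i)‖ :=
        Complex.abs_re_le_norm _
    _ ≤ ∑ i, ‖v i * (starRingEnd ℂ) (w i)‖ := norm_sum_le _ _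
    _ ≤ ∑ i, (‖v i‖ ^ 2 + ‖w i‖ ^ 2) / 2 := by
        refine Finset.sum_le_sum fun i _ => ?_
        rw [norm_mul, RCLike.norm_conj]
        nlinarith [sq_nonneg (‖v i‖ - ‖w i‖)]
    _ = _ := by
        rw [← Finset.sum_div, Finset.sum_add_distrib]

theorem t_LIM (hB : S_BAL) (hG : S_GD) : S_LIM := by
  intro ν T f u hT hW F φ hφ hF hflux t ht
  obtain ⟨hgood, -, hDm, hDf, -⟩ := hG ν T f u hT hW
  obtain ⟨E, hE⟩ := hW.energy
  have h0T : (0 : ℝ) ∈ Icc 0 T := ⟨le_rfl, hT.le⟩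
  have hsub : Set.uIoc 0 t ⊆ Icc 0 T := by
    rw [uIoc_of_le ht.1]
    exact fun s hs => ⟨hs.1.le, hs.2.trans ht.2⟩
  have hrs : (volume : Measure ℝ).restrict (Set.uIoc 0 t) ≤ volume.restrict (Icc 0 T) :=
    Measure.restrict_mono_set _ hsub
  -- summability of the energy
  have hsum : ∀ s ∈ Icc 0 T, Summable (sq (u s)) ∧ ∑' k, sq (u s) k ≤ (ENNReal.ofReal E).toReal := by
    intro s hs
    have h1 : ∑' k, ENNReal.ofReal (sq (u s) k) ≠ ⊤ :=
      ((hE s hs).trans_lt ENNReal.ofReal_lt_top).ne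
    obtain ⟨h2, h3⟩ := summable_of (sq_nonneg' (u s)) h1
    refine ⟨h2, ?_⟩
    rw [h3]
    exact ENNReal.toReal_mono ENNReal.ofReal_ne_top (hE s hs)
  -- the dissipation
  have hD0 : ∀ s, 0 ≤ ∑' k, nsq k * sq (u s) k := fun s =>
    tsum_nonneg fun k => mul_nonneg (nsq_nonneg k) (sq_nonneg' _ _)
  have hDi : Integrable (fun s => ∑' k, nsq k * sq (u s) k) (volume.restrict (Icc 0 T)) := by
    have h1 := integrable_toReal_of_lintegral_ne_top hDm hDf
    refine h1.congr (Eventually.of_forall fun s => ?_)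
    exact ENNReal.toReal_ofReal (hD0 s)
  have hgood' : ∀ᵐ s ∂(volume : Measure ℝ), s ∈ Icc 0 T → Good (u s) :=
    (ae_restrict_iff' measurableSet_Icc).1 hgood
  have hmu : ∀ k, AEStronglyMeasurable (fun s => sq (u s) k) (volume.restrict (Icc 0 T)) :=
    meas_sq hW.meas
  have lim2 : Tendsto (fun n => ∫ s in (0 : ℝ)..t, ∑ k ∈ F n, φ n k * (nsq k * sq (u s) k)) atTop
      (𝓝 (∫ s in (0 : ℝ)..t, ∑' k, nsq k * sq (u s) k)) := by
    refine intervalIntegral.tendsto_integral_filter_of_dominated_convergence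
      (fun s => ∑' k, nsq k * sq (u s) k) (Eventually.of_forall fun n => ?_)
      (Eventually.of_forall fun n => ?_) ?_ ?_
    · refine AEStronglyMeasurable.mono_measure ?_ hrs
      exact Finset.aestronglyMeasurable_fun_sum _ fun k _ =>
        ((hmu k).const_mul (nsq k)).const_mul (φ n k)
    · filter_upwards [hgood'] with s hs hst
      rw [Real.norm_eq_abs]
      exact bd_sum (hφ n) (fun k => (abs_of_nonneg
        (mul_nonneg (nsq_nonneg k) (sq_nonneg' _ _))).le) (hs (hsub hst)).s1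
    · rw [intervalIntegrable_iff]
      exact hDi.mono_measure hrs
    · filter_upwards [hgood'] with s hs hst
      exact lim_sum hφ hF (hs (hsub hst)).s1
  -- the force
  obtain ⟨Φ, hΦ⟩ : ∃ Φ : ℝ → ℝ≥0∞, Φ = fun s => ∑' k, ENNReal.ofReal (sq (f s) k) := ⟨_, rfl⟩
  have hΦm : AEMeasurable Φ (volume.restrict (Icc 0 T)) := by
    rw [hΦ]
    exact AEMeasurable.ennreal_tsum fun k => (meas_sq hW.fmeas k).aemeasurable.ennreal_ofReal
  have hΦf : ∫⁻ s in Icc 0 T, Φ s ≠ ⊤ := by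
    rw [hΦ]
    exact hW.force
  have hΦi := integrable_toReal_of_lintegral_ne_top hΦm hΦf
  have hΦa : ∀ᵐ s ∂(volume : Measure ℝ), s ∈ Icc 0 T → Φ s < ⊤ :=
    (ae_restrict_iff' measurableSet_Icc).1 (ae_lt_top' hΦm hΦf)
  have hbdf : ∀ s ∈ Icc 0 T, Φ s < ⊤ →
      Summable (fun k => (sq (f s) k + sq (u s) k) / 2) ∧
      ∑' k, (sq (f s) k + sq (u s) k) / 2 ≤ ((Φ s).toReal + (ENNReal.ofReal E).toReal) / 2 := by
    intro s hs hfin
    rw [hΦ] at hfin
    obtain ⟨h1, h2⟩ := summable_of (sq_nonneg' (f s)) hfin.ne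
    obtain ⟨h3, h4⟩ := hsum s hs
    refine ⟨(h1.add h3).div_const 2, ?_⟩
    rw [tsum_div_const, h1.tsum_add h3, h2, hΦ]
    linarith
  have lim4 : Tendsto (fun n => ∫ s in (0 : ℝ)..t, ∑ k ∈ F n, φ n k *
      (∑ i, f s k i * (starRingEnd ℂ) (u s k i)).re) atTop
      (𝓝 (∫ s in (0 : ℝ)..t, ∑' k, (∑ i, f s k i * (starRingEnd ℂ) (u s k i)).re)) := by
    refine intervalIntegral.tendsto_integral_filter_of_dominated_convergence
      (fun s => ((Φ s).toReal + (ENNReal.ofReal E).toReal) / 2) (Eventually.of_forall fun n => ?_)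
      (Eventually.of_forall fun n => ?_) ?_ ?_
    · refine AEStronglyMeasurable.mono_measure ?_ hrs
      refine Finset.aestronglyMeasurable_fun_sum _ fun k _ => ?_
      refine AEStronglyMeasurable.const_mul ?_ (φ n k)
      refine Complex.continuous_re.comp_aestronglyMeasurable ?_
      refine Finset.aestronglyMeasurable_fun_sum _ fun i _ => ?_
      exact (hW.fmeas k i).mul (Complex.continuous_conj.comp_aestronglyMeasurable (hW.meas k i))
    · filter_upwards [hΦa] with s hs hst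
      rw [Real.norm_eq_abs]
      obtain ⟨h1, h2⟩ := hbdf s (hsub hst) (hs (hsub hst))
      exact (bd_sum (hφ n) (fun k => force_bd (f s k) (u s k)) h1).trans h2
    · rw [intervalIntegrable_iff]
      have h1 : IntegrableOn (fun s => ((Φ s).toReal + (ENNReal.ofReal E).toReal) / 2)
          (Icc 0 T) := by
        refine Integrable.div_const (Integrable.add hΦi ?_) 2
        exact integrable_const _
      exact Integrable.mono_measure h1 hrs
    · filter_upwards [hΦa] with s hs hst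
      obtain ⟨h1, -⟩ := hbdf s (hsub hst) (hs (hsub hst))
      exact lim_sum hφ hF (Summable.of_norm_bounded h1 fun k => force_bd (f s k) (u s k))
  -- the flux
  have lim3 : Tendsto (fun n => ∫ s in (0 : ℝ)..t, flux (F n) (φ n) (u s)) atTop (𝓝 0) := by
    have h1 : Tendsto (fun n => (∫⁻ s in Icc 0 T,
        ENNReal.ofReal |flux (F n) (φ n) (u s)|).toReal) atTop (𝓝 0) := by
      have := (ENNReal.tendsto_toReal ENNReal.zero_ne_top).comp hflux
      simpa [Function.comp_def] using this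
    refine squeeze_zero_norm' ?_ h1
    filter_upwards [hflux.eventually_lt_const (zero_lt_one' ℝ≥0∞)] with n hn
    rw [intervalIntegral.integral_of_le ht.1]
    refine (norm_integral_le_lintegral_norm _).trans ?_
    refine ENNReal.toReal_mono (hn.trans ENNReal.one_lt_top).ne ?_
    refine lintegral_mono' ?_ fun s => le_of_eq ?_
    · rw [← uIoc_of_le ht.1]
      exact hrs
    · rw [Real.norm_eq_abs]
  have lim1 : ∀ s ∈ Icc 0 T, Tendsto (fun n => ∑ k ∈ F n, φ n k * sq (u s) k) atTop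
      (𝓝 (∑' k, sq (u s) k)) := fun s hs => lim_sum hφ hF (hsum s hs).1
  have hL := ((lim1 t ht).div_const 2).add (lim2.const_mul ν)
  have hR := (((lim1 0 h0T).div_const 2).add lim3).add lim4
  rw [add_zero] at hR
  refine tendsto_nhds_unique hL (hR.congr fun n => ?_)
  exact (hB ν T f u hT hW (F n) (φ n) t ht).symm

end Pool.Agent.U128.EW.LIM
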